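import Pool.Agent.N874.PM.Stm

/-!
# The extension is unramified at the primes which do not divide `δ` (statement S_UR)
-/

set_option autoImplicit false
set_option linter.all false

open Polynomial IsDedekindDomain
open Pool.Agent.N874.PP
open scoped Classical IntermediateField

namespace Pool.Agent.N603.PM.UR

open Pool.Agent.N874.PM

theorem core (A K L B : Type) [CommRing A] [IsDedekindDomain A] [Field K] [Algebra A K]
    [IsFractionRing A K] [Field L] [Algebra K L] [CommRing B] [IsDedekindDomain B] [Algebra B L]
    [IsFractionRing B L] [Algebra A B] [Algebra A L] [IsScalarTower A K L] [IsScalarTower A B L]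
    [FiniteDimensional K L] [Algebra.IsSeparable K L] [IsIntegralClosure B A L] (y : B)
    (hy : Algebra.adjoin K {algebraMap B L y} = ⊤) (P : HeightOneSpectrum B)
    (hP : aeval y (derivative (minpoly A y)) ∉ P.asIdeal) (v : HeightOneSpectrum A)
    [P.asIdeal.LiesOver v.asIdeal] (x : K) :
    P.valuation L (algebraMap K L x) = v.valuation K x := by
  have hinjL : Function.Injective (algebraMap A L) := by
    rw [IsScalarTower.algebraMap_eq A K L]
    exact (algebraMap K L).injective.comp (IsFractionRing.injective A K)
  have hinj : Function.Injective (algebraMap A B) := by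
    have h := hinjL
    rw [IsScalarTower.algebraMap_eq A B L] at h
    exact Function.Injective.of_comp h
  have : FaithfulSMul A B := (faithfulSMul_iff_algebraMap_injective A B).2 hinj
  have : Module.IsTorsionFree A B := inferInstance
  have : Module.Finite A B := IsIntegralClosure.finite A K L B
  let _ : Algebra (FractionRing A) (FractionRing B) := FractionRing.liftAlgebra A (FractionRing B)
  have hsep : Algebra.IsSeparable (FractionRing A) (FractionRing B) := by
    refine Algebra.IsSeparable.of_equiv_equiv (FractionRing.algEquiv A K).symm.toRingEquiv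
      (FractionRing.algEquiv B L).symm.toRingEquiv ?_
    apply IsLocalization.ringHom_ext (nonZeroDivisors A)
    ext a
    simp only [RingHom.coe_comp, RingHom.coe_coe, Function.comp_apply, AlgEquiv.coe_ringEquiv]
    rw [← IsScalarTower.algebraMap_apply A K L, IsScalarTower.algebraMap_apply A B L,
      AlgEquiv.commutes, AlgEquiv.commutes,
      ← IsScalarTower.algebraMap_apply A (FractionRing A) (FractionRing B),
      ← IsScalarTower.algebraMap_apply A B (FractionRing B)]
  have hnd : ¬ P.asIdeal ∣ differentIdeal A B := by
    intro h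
    exact hP (Ideal.dvd_iff_le.1 h (aeval_derivative_mem_differentIdeal A K L y hy))
  have hun : Algebra.IsUnramifiedAt A P.asIdeal := not_dvd_differentIdeal_iff.1 hnd
  have he : v.asIdeal.ramificationIdx' P.asIdeal = 1 := by
    rw [Ideal.ramificationIdx'_eq_ramificationIdx _ _ v.ne_bot]
    exact Ideal.ramificationIdx_eq_one_of_isUnramifiedAt
  have := HeightOneSpectrum.valuation_liesOver L v P x
  rw [he, pow_one] at this
  exact this.symm

section gen

variable {k F F' : Type} [Field k] [Field F] [Field F'] [Algebra F F']
  [Algebra k[X] F] [Algebra k[X] F'] [IsScalarTower k[X] F F'] {γ : F'} {g : k[X][X]} {δ : k[X]}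

theorem int_γ (h : Gen F γ g δ) : IsIntegral k[X] γ := ⟨g, h.monic, h.root⟩

theorem fin (h : Gen F γ g δ) : FiniteDimensional F F' := by
  have h1 : IsIntegral F γ := (int_γ h).tower_top
  have h2 : FiniteDimensional F F⟮γ⟯ := IntermediateField.adjoin.finiteDimensional h1
  rw [h.top] at h2
  exact Module.Finite.equiv (IntermediateField.topEquiv (F := F) (E := F')).toLinearEquiv

theorem sep_g (h : Gen F γ g δ) (hδ : algebraMap k[X] F δ ≠ 0) :
    (g.map (algebraMap k[X] F)).Separable := by
  obtain ⟨u, w, huw⟩ := h.comb
  have h1 := congrArg (Polynomial.map (algebraMap k[X] F)) huw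
  rw [Polynomial.map_add, Polynomial.map_mul, Polynomial.map_mul, Polynomial.map_C,
    ← Polynomial.derivative_map] at h1
  refine ⟨C (algebraMap k[X] F δ)⁻¹ * u.map (algebraMap k[X] F),
    C (algebraMap k[X] F δ)⁻¹ * w.map (algebraMap k[X] F), ?_⟩
  rw [mul_assoc, mul_assoc, ← mul_add, ← h1, ← C_mul, inv_mul_cancel₀ hδ, C_1]

theorem sep (h : Gen F γ g δ) (hδ : algebraMap k[X] F δ ≠ 0) : Algebra.IsSeparable F F' := by
  have h1 : minpoly F γ ∣ g.map (algebraMap k[X] F) := by
    apply minpoly.dvd
    rw [aeval_map_algebraMap]
    exact h.root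
  have h2 : IsSeparable F γ := (sep_g h hδ).of_dvd h1
  have h3 : Algebra.IsSeparable F F⟮γ⟯ :=
    (IntermediateField.isSeparable_adjoin_simple_iff_isSeparable _ _).2 h2
  rw [h.top] at h3
  exact Algebra.IsSeparable.of_algHom F (⊤ : IntermediateField F F')
    (IntermediateField.topEquiv (F := F) (E := F')).symm.toAlgHom

theorem adj (h : Gen F γ g δ) : Algebra.adjoin F {γ} = ⊤ := by
  have h1 : IsIntegral F γ := (int_γ h).tower_top
  have h2 := IntermediateField.adjoin_simple_toSubalgebra_of_isAlgebraic h1.isAlgebraic
  rw [← h2, h.top, IntermediateField.top_toSubalgebra]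

end gen

section main

variable {k F F' O O' : Type} [Field k] [Field F] [Field F'] [Algebra F F']
  [Algebra k[X] F] [Algebra k[X] F'] [IsScalarTower k[X] F F'] [CommRing O] [IsDedekindDomain O]
  [Algebra O F] [IsFractionRing O F] [Algebra k[X] O] [IsScalarTower k[X] O F]
  [CommRing O'] [IsDedekindDomain O'] [Algebra O' F'] [IsFractionRing O' F'] [Algebra k[X] O']
  [IsScalarTower k[X] O' F'] [IsIntegralClosure O' k[X] F']
  [Algebra O F'] [IsScalarTower O F F'] [Algebra O O'] [IsScalarTower O O' F']
  [IsScalarTower k[X] O O'] [IsIntegralClosure O' O F']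
  {γ : F'} {g : k[X][X]} {δ : k[X]}

theorem step (h : Gen F γ g δ) (P : HeightOneSpectrum O') (hP : ¬ Ov δ P)
    (v : HeightOneSpectrum O) [P.asIdeal.LiesOver v.asIdeal] (x : F) :
    P.valuation F' (algebraMap F F' x) = v.valuation F x := by
  have hδ : algebraMap k[X] F δ ≠ 0 := by
    intro h0
    apply hP
    have h1 : algebraMap k[X] O δ = 0 := by
      apply IsFractionRing.injective O F
      rw [← IsScalarTower.algebraMap_apply, h0, map_zero]
    show algebraMap k[X] O' δ ∈ P.asIdeal
    rw [IsScalarTower.algebraMap_apply k[X] O O', h1, map_zero]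
    exact zero_mem _
  have : FiniteDimensional F F' := fin h
  have : Algebra.IsSeparable F F' := sep h hδ
  obtain ⟨y, hy⟩ := (IsIntegralClosure.isIntegral_iff (R := k[X]) (A := O')).1 (int_γ h)
  have hadj : Algebra.adjoin F {algebraMap O' F' y} = ⊤ := by
    rw [hy]; exact adj h
  refine core O F F' O' y hadj P ?_ v x
  intro hmem
  apply hP
  have hinj : Function.Injective (algebraMap O O') := by
    have h1 : Function.Injective (algebraMap O F') := by
      rw [IsScalarTower.algebraMap_eq O F F']
      exact (algebraMap F F').injective.comp (IsFractionRing.injective O F)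
    rw [IsScalarTower.algebraMap_eq O O' F'] at h1
    exact Function.Injective.of_comp h1
  have : FaithfulSMul O O' := (faithfulSMul_iff_algebraMap_injective O O').2 hinj
  have : Module.IsTorsionFree O O' := inferInstance
  have hgy : aeval y g = 0 := by
    apply IsFractionRing.injective O' F'
    rw [map_zero, ← Polynomial.aeval_algebraMap_apply, hy]
    exact h.root
  have hint : IsIntegral O y := IsIntegral.tower_top (R := k[X]) ⟨g, h.monic, hgy⟩
  have hdvd : minpoly O y ∣ g.map (algebraMap k[X] O) := by
    apply minpoly.isIntegrallyClosed_dvd hint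
    rw [aeval_map_algebraMap]
    exact hgy
  obtain ⟨q, hq⟩ := hdvd
  have h1 : aeval y (derivative g) = aeval y (derivative (minpoly O y)) * aeval y q := by
    have h2 := congrArg (fun p : O[X] => aeval y (derivative p)) hq
    simp only [derivative_mul, map_add, map_mul, minpoly.aeval, zero_mul, add_zero] at h2
    rw [← h2, derivative_map, aeval_map_algebraMap]
  obtain ⟨u, w, huw⟩ := h.comb
  have h3 := congrArg (aeval y) huw
  rw [map_add, map_mul, map_mul, hgy, mul_zero, zero_add, aeval_C, h1] at h3
  show algebraMap k[X] O' δ ∈ P.asIdeal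
  rw [h3]
  exact Ideal.mul_mem_left _ _ (Ideal.mul_mem_right _ _ hmem)

end main

theorem ur : S_UR := by
  intro k F F' O O' _ _ _ _ _ _ _ _ _ _ _ _ _ _ _ _ _ _ _ _ _ γ g δ h
  let _ : Algebra O F' := ((algebraMap F F').comp (algebraMap O F)).toAlgebra
  have t1 : IsScalarTower O F F' := IsScalarTower.of_algebraMap_eq fun _ => rfl
  have t2 : IsScalarTower k[X] O F' := IsScalarTower.of_algebraMap_eq fun x => by
    rw [IsScalarTower.algebraMap_apply k[X] F F', IsScalarTower.algebraMap_apply k[X] O F,
      IsScalarTower.algebraMap_apply O F F']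
  have t3 : Algebra.IsIntegral k[X] O := IsIntegralClosure.isIntegral_algebra k[X] F
  let l : O →ₐ[k[X]] O' := IsIntegralClosure.lift k[X] O' F'
  let _ : Algebra O O' := l.toRingHom.toAlgebra
  have t4 : IsScalarTower O O' F' := IsScalarTower.of_algebraMap_eq fun x =>
    (IsIntegralClosure.algebraMap_lift k[X] O' F' x).symm
  have t5 : IsScalarTower k[X] O O' := IsScalarTower.of_algebraMap_eq fun x =>
    (l.commutes x).symm
  have t6 : IsIntegralClosure O' O F' := IsIntegralClosure.tower_top (R := k[X])
  have t7 : Algebra.IsIntegral O O' := IsIntegralClosure.isIntegral_algebra O F'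
  have hinj : Function.Injective (algebraMap O O') := by
    have h1 : Function.Injective (algebraMap O F') := by
      rw [IsScalarTower.algebraMap_eq O F F']
      exact (algebraMap F F').injective.comp (IsFractionRing.injective O F)
    rw [IsScalarTower.algebraMap_eq O O' F'] at h1
    exact Function.Injective.of_comp h1
  constructor
  · intro P hP
    have hp0 : P.asIdeal.under O ≠ ⊥ := by
      intro h0
      exact P.ne_bot (Ideal.eq_bot_of_comap_eq_bot h0)
    let v : HeightOneSpectrum O := ⟨P.asIdeal.under O, inferInstance, hp0⟩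
    have hl : P.asIdeal.LiesOver v.asIdeal := ⟨rfl⟩
    exact ⟨v, fun x => step h P hP v x⟩
  · intro v hv
    obtain ⟨Q, -, hQp, hQ⟩ := Ideal.exists_ideal_over_prime_of_isIntegral (S := O') v.asIdeal ⊥
      (by
        intro x hx
        have h1 : algebraMap O O' x = 0 := by simpa using hx
        have h2 : x = 0 := hinj (by rw [h1, map_zero])
        rw [h2]
        exact zero_mem _)
    have hQ0 : Q ≠ ⊥ := by
      rintro rfl
      apply v.ne_bot
      rw [← hQ]
      exact (RingHom.injective_iff_ker_eq_bot _).1 hinj
    let P : HeightOneSpectrum O' := ⟨Q, hQp, hQ0⟩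
    have hl : P.asIdeal.LiesOver v.asIdeal := ⟨hQ.symm⟩
    refine ⟨P, fun x => step h P ?_ v x⟩
    intro h1
    apply hv
    have h2 : algebraMap k[X] O' δ ∈ Q := h1
    rw [IsScalarTower.algebraMap_apply k[X] O O'] at h2
    show algebraMap k[X] O δ ∈ v.asIdeal
    rw [← hQ]
    exact h2

end Pool.Agent.N603.PM.UR
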